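import Pool.Agent.H381_TO.Par

/-!
Parity of the coefficients of `T_o(q) = ∑ q^(2m) (-q;q)_(2m) / (q;q^2)_(m+1)`: full answer to Q1.
-/

set_option autoImplicit false

namespace Pool.Agent.Results.MP_0c59fa_nt.ToParity

open PowerSeries Finset

/-- The `m`-th term `q^(2m) (-q;q)_(2m) / (q;q^2)_(m+1)` of the series `T_o(q)`, an integral power
series in `q = X`. (`invOfUnit f 1` is the inverse of the power series `f` with constant
coefficient `1`.) -/
noncomputable def term (m : ℕ) : PowerSeries ℤ :=
  X ^ (2 * m) * (∏ k ∈ range (2 * m), (1 + X ^ (k + 1))) *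
    invOfUnit (∏ k ∈ range (m + 1), (1 - X ^ (2 * k + 1))) 1

/-- The coefficient `t_o(n)` of `q^n` in `T_o(q) = ∑_m term m`: the sum over all `m` of the
coefficients of `q^n` in the terms (all but finitely many are zero, see `result`). -/
noncomputable def t (n : ℕ) : ℤ := ∑ᶠ m : ℕ, coeff n (term m)

lemma term_eq (m : ℕ) : term m = H381_TO.toTerm m := rfl

lemma supp (n : ℕ) : Function.support (fun m : ℕ => coeff n (term m)) ⊆
    ((range (n + 1) : Finset ℕ) : Set ℕ) := by
  intro m hm
  rw [Function.mem_support] at hm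
  rw [mem_coe, mem_range]
  by_contra hc
  apply hm
  rw [term_eq]
  exact H381_TO.coeff_toTerm n m (by omega)

/-- For every `n` only finitely many terms contribute to the coefficient `t_o(n)`, and `t_o(n)` is
even whenever `8 n + 9` is not of the form `x^2 + 2 y^2` with integers `x`, `y`. -/
theorem result : ∀ n : ℕ, (Function.support (fun m : ℕ => coeff n (term m))).Finite ∧
    ((¬ ∃ x y : ℤ, 8 * (n : ℤ) + 9 = x ^ 2 + 2 * y ^ 2) → (2 : ℤ) ∣ t n) := by
  intro n
  refine ⟨(finite_toSet (range (n + 1))).subset (supp n), fun h => ?_⟩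
  have h1 : t n = coeff n (H381_TO.TT 0) := by
    unfold t
    rw [finsum_eq_sum_of_support_subset _ (supp n)]
    unfold H381_TO.TT
    rw [H381_TO.coeff_sm]
    refine sum_congr rfl fun m _ => ?_
    rw [term_eq, H381_TO.toTerm_eq]
  rw [h1]
  exact H381_TO.parity n h

end Pool.Agent.Results.MP_0c59fa_nt.ToParity
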